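import Pool.Agent.H98.SD.Targets
import Pool.Agent.H45.NF.PA

/-!
# Row TRN of the board sd2 (MP_e37c09_lc): change of the parameter
-/

open Ordinal Cardinal Order Set
open scoped ZFSet

universe u

namespace Pool.Agent.H67.SD

open _root_.HD _root_.HD.SD

/-- change of the parameter of a section -/
theorem TRN_aux {en : Ordinal.{u} → ZFSet.{u}} (hen : EN en) {x x' : ZFSet.{u}}
    (h : NF.ODp x' x) (η c : Ordinal.{u}) :
    ∃ c', ∀ z, (ZFSet.pair x' z ∈ en c' ↔ z ∈ V_ η ∧ ZFSet.pair x z ∈ en c) := by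
  obtain ⟨Q, hQ, hx⟩ := Pool.Agent.H45.NF.ODp.def h
  have hc : OD (en c) := (hen.od _).2 ⟨c, rfl⟩
  set ζ : Ordinal.{u} := (ZFSet.prod {x'} (V_ η)).rank with hζ
  have hS : OD (ZFSet.sep (fun w => ∃ p z, w = ZFSet.pair p z ∧ z ∈ V_ η ∧
      ∃ a, Q (cons a fun _ => p) ∧ ZFSet.pair a z ∈ en c) (V_ ζ)) := by
    refine Pool.Agent.H45.NF.od_sep (HD.NF.od_V _) ?_
    refine DZ.ex (R := fun p v => ∃ z, v 0 = ZFSet.pair p z ∧ z ∈ V_ η ∧
      ∃ a, Q (cons a fun _ => p) ∧ ZFSet.pair a z ∈ en c) (DZ.ex ((loc_pair 2 1 0).dz.and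
        (DZ.and ?_ (DZ.ex (DZ.and ?_ ?_)))))
    · exact DZ.od (R := fun b v => v 0 ∈ b) (HD.NF.od_V η) (DZ.mem 1 0)
    · refine (hQ.ren fun n => if n = 0 then 0 else 2).congr fun v => ?_
      have : (cons (v 0) fun _ => v 2) = fun n => v (if n = 0 then 0 else 2) := by
        funext n
        rcases n with _ | n <;> simp
      rw [← this]
    · exact DZ.od (R := fun r v => ZFSet.pair (v 0) (v 1) ∈ r) hc (loc_pmem 1 2 0).dz
  obtain ⟨c', hc'⟩ := (hen.od _).1 hS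
  refine ⟨c', fun z => ?_⟩
  rw [hc', ZFSet.mem_sep]
  constructor
  · rintro ⟨-, p, z', he, hz, a, ha, hm⟩
    obtain ⟨rfl, rfl⟩ := ZFSet.pair_injective he
    rw [(hx a).1 ha] at hm
    exact ⟨hz, hm⟩
  · rintro ⟨hz, hm⟩
    refine ⟨?_, x', z, rfl, hz, x, (hx x).2 rfl, hm⟩
    rw [ZFSet.mem_vonNeumann, hζ]
    refine ZFSet.rank_lt_of_mem ?_
    rw [ZFSet.pair_mem_prod]
    exact ⟨ZFSet.mem_singleton.2 rfl, hz⟩

theorem pf_TRN : T_TRN.{u} := by
  intro en hen x x' h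
  refine ⟨fun z hz => ?_, fun κ c => ?_, fun κ m => ?_⟩
  · obtain ⟨Q, hQ, hx⟩ := Pool.Agent.H45.NF.ODp.def h
    obtain ⟨Q', hQ', hz'⟩ := Pool.Agent.H45.NF.ODp.def hz
    refine Pool.Agent.H45.NF.ODp.of_dz
      (Q := fun v => ∃ a, Q (cons a fun _ => v 1) ∧ Q' (cons (v 0) fun _ => a)) ?_ fun y => ?_
    · refine DZ.ex (R := fun a v => Q (cons a fun _ => v 1) ∧ Q' (cons (v 0) fun _ => a))
        (DZ.and ?_ ?_)
      · refine (hQ.ren fun n => if n = 0 then 0 else 2).congr fun v => ?_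
        have : (cons (v 0) fun _ => v 2) = fun n => v (if n = 0 then 0 else 2) := by
          funext n
          rcases n with _ | n <;> simp
        rw [← this]
      · refine (hQ'.ren fun n => if n = 0 then 1 else 0).congr fun v => ?_
        have : (cons (v 1) fun _ => v 0) = fun n => v (if n = 0 then 1 else 0) := by
          funext n
          rcases n with _ | n <;> simp
        rw [← this]
    · show (∃ a, Q (cons a fun _ => x') ∧ Q' (cons y fun _ => a)) ↔ y = z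
      constructor
      · rintro ⟨a, ha, hy⟩
        rw [(hx a).1 ha] at hy
        exact (hz' y).1 hy
      · rintro rfl
        exact ⟨x, (hx x).2 rfl, (hz' y).2 rfl⟩
  · obtain ⟨c', hc'⟩ := TRN_aux hen h κ c
    refine ⟨c', fun b => (hc' _).trans ?_⟩
    rw [ZFSet.mem_vonNeumann, rank_toZFSet]
    exact Iff.rfl
  · rintro ⟨c, h1, h2⟩
    obtain ⟨c', hc'⟩ := TRN_aux hen h (ZFSet.prod κ.toZFSet m.toZFSet).rank c
    refine ⟨c', fun i hi => ?_, fun b i i' hb hb' => h2 b i i' ?_ ?_⟩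
    · refine (h1 i hi).mono fun b hb hbX _ => (hc' _).2 ⟨?_, hbX⟩
      rw [ZFSet.mem_vonNeumann]
      refine ZFSet.rank_lt_of_mem ?_
      rw [ZFSet.pair_mem_prod]
      exact ⟨Ordinal.toZFSet_mem_toZFSet_iff.2 hb, Ordinal.toZFSet_mem_toZFSet_iff.2 hi⟩
    · exact ((hc' _).1 hb).2
    · exact ((hc' _).1 hb').2

end Pool.Agent.H67.SD
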