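import Pool.Agent.H98.SD.TargetsM
import Pool.Agent.H67.SD.TRN

/-!
# Row TRM of the board sd2 (MP_e37c09_lc): change of the parameter, positivity at any cofinality
-/

open Ordinal Cardinal Order Set
open scoped ZFSet

universe u

namespace Pool.Agent.H67.SD

open _root_.HD _root_.HD.SD

theorem pf_TRM : T_TRM.{u} := by
  intro en hen x x' h μ κ m
  rintro ⟨c, h1, h2⟩
  obtain ⟨c', hc'⟩ := TRN_aux hen h (ZFSet.prod κ.toZFSet m.toZFSet).rank c
  refine ⟨c', fun i hi => ?_, fun b i i' hb hb' => h2 b i i' ?_ ?_⟩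
  · refine (h1 i hi).mono fun b hb hbX _ => (hc' _).2 ⟨?_, hbX⟩
    rw [ZFSet.mem_vonNeumann]
    refine ZFSet.rank_lt_of_mem ?_
    rw [ZFSet.pair_mem_prod]
    exact ⟨Ordinal.toZFSet_mem_toZFSet_iff.2 hb, Ordinal.toZFSet_mem_toZFSet_iff.2 hi⟩
  · exact ((hc' _).1 hb).2
  · exact ((hc' _).1 hb').2

end Pool.Agent.H67.SD
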